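import Pool.Agent.P.MP_8e9e7d_al.BMain
import Pool.Agent.P.MP_8e9e7d_al.Ex

set_option autoImplicit false

open Pool.Agent.P.MP_8e9e7d_al

theorem Pool.Agent.Results.MP_8e9e7d_al.Classification.result :
    (∀ (Γ : AddSubmonoid ℕ) (g : Fin 4 → ℕ), ((Γ : Set ℕ)ᶜ).Finite →
      AddSubmonoid.closure (Set.range g) = Γ →
      (∀ i, g i ∉ AddSubmonoid.closure (g '' {j | j ≠ i})) →
      (∀ i, ∃ p, IsPF Γ p ∧ ∀ q, IsPF Γ q → Mem Γ (g i + p - q)) → ¬ AlmostSymmetric Γ →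
      ∀ (k : Type) [Field k] (ρ : ℕ),
      ρ = (RingHom.ker (MvPolynomial.aeval (fun i => (Polynomial.X : Polynomial k) ^ g i) :
        MvPolynomial (Fin 4) k →ₐ[k] Polynomial k)).spanFinrank →
      ({f | IsPF Γ f}.ncard = 2 ∧ (ρ = 4 ∨ ρ = 5)) ∨ ({f | IsPF Γ f}.ncard = 3 ∧ ρ = 6)) ∧
    ∃ (Γ : AddSubmonoid ℕ) (g : Fin 4 → ℕ), g = ![6, 7, 8, 9] ∧
      ((Γ : Set ℕ)ᶜ).Finite ∧ AddSubmonoid.closure (Set.range g) = Γ ∧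
      (∀ i, g i ∉ AddSubmonoid.closure (g '' {j | j ≠ i})) ∧
      (∀ i, ∃ p, IsPF Γ p ∧ ∀ q, IsPF Γ q → Mem Γ (g i + p - q)) ∧
      ¬ AlmostSymmetric Γ ∧
      ∀ (k : Type) [Field k], (RingHom.ker (MvPolynomial.aeval
        (fun i => (Polynomial.X : Polynomial k) ^ g i) :
          MvPolynomial (Fin 4) k →ₐ[k] Polynomial k)).spanFinrank = 4 := by
  refine ⟨fun Γ g hfin hcl hmin hng has k _ ρ hρ => ?_, ?_⟩
  · have h := B.main Γ g hfin hcl hmin hng has k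
    change _ ∧ 4 ≤ _ ∧ _ ≤ 5 ∨ _ ∧ _ = 6 at h
    rw [B.ph, ← hρ] at h
    omega
  · obtain ⟨Γ, g, h0, h1, -, h2, h3, h4, h5, h6⟩ := Pool.Agent.P.MP_8e9e7d_al.main
    exact ⟨Γ, g, h0, h1, h2, h3, h4, h5, h6⟩
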