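import Pool.Agent.P.MP_8e9e7d_al.SMain

set_option autoImplicit false

namespace Pool.Agent.Results.MP_8e9e7d_al.TypeGap

open Pool.Agent.P.MP_8e9e7d_al

/-- `Γ` is a numerical semigroup with the four minimal generators `g i`. -/
def MinGen (Γ : AddSubmonoid ℕ) (g : Fin 4 → ℕ) : Prop :=
  ((Γ : Set ℕ)ᶜ).Finite ∧ AddSubmonoid.closure (Set.range g) = Γ ∧
    ∀ i, g i ∉ AddSubmonoid.closure (g '' {j | j ≠ i})

/-- The type: the number of pseudo-Frobenius numbers. -/
noncomputable def type (Γ : AddSubmonoid ℕ) : ℕ := {f | IsPF Γ f}.ncard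

/-- The minimal number of generators of the kernel of `k[x_0, …, x_3] → k[t]`, `x_i ↦ t ^ g i`. -/
noncomputable def rho (k : Type) [Field k] (g : Fin 4 → ℕ) : ℕ :=
  (RingHom.ker (MvPolynomial.aeval (fun i => (Polynomial.X : Polynomial k) ^ g i) :
    MvPolynomial (Fin 4) k →ₐ[k] Polynomial k)).spanFinrank

/-- In embedding dimension four the number of relations lies between the type plus one and the
type plus five, and both bounds are attained. -/
theorem result (k : Type) [Field k] :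
    (∀ Γ g, MinGen Γ g → type Γ + 1 ≤ rho k g ∧ rho k g ≤ type Γ + 5) ∧
    (∃ Γ g, MinGen Γ g ∧ rho k g = type Γ + 1) ∧ ∃ Γ g, MinGen Γ g ∧ rho k g = type Γ + 5 := by
  refine ⟨fun Γ g h => S.main Γ g h.1 h.2.1 h.2.2 k, ?_, ?_⟩
  · obtain ⟨a, b, c, d⟩ := S.exLow
    exact ⟨_, _, ⟨a, rfl, b⟩, (d k).trans (congrArg (· + 1) c).symm⟩
  · obtain ⟨a, b, c, d⟩ := S.exHigh
    exact ⟨_, _, ⟨a, rfl, b⟩, (d k).trans (congrArg (· + 5) c).symm⟩

end Pool.Agent.Results.MP_8e9e7d_al.TypeGap
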